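import Mathlib
import Pool.Agent.H16.ORS.W

/-!
# MP_5182ad_lc, short advice: row NUM
-/

set_option autoImplicit false

open Polynomial Finset
open Pool.ORB (Ad pre str Wo Enu Acc Tr inl al un LL AgO pair OM PT NP UP coUP Sig S2 PH AdvL S2L
  Fct FS Fn Val ans Hp Tp Np Sp)

namespace Pool.ORS

namespace NUMaux

/-- Polynomials over `ℕ` are bounded by a power. -/
lemma poly_le (A : ℕ[X]) : ∃ c : ℕ, ∀ u ≥ 2, A.eval u ≤ u ^ c := by
  induction A using Polynomial.induction_on' with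
  | add p q hp hq =>
    obtain ⟨a, ha⟩ := hp
    obtain ⟨b, hb⟩ := hq
    refine ⟨max a b + 1, fun u hu => ?_⟩
    rw [eval_add, pow_succ]
    have h1 : u ^ a ≤ u ^ max a b := Nat.pow_le_pow_right (by omega) (le_max_left _ _)
    have h2 : u ^ b ≤ u ^ max a b := Nat.pow_le_pow_right (by omega) (le_max_right _ _)
    have h3 : u ^ max a b * 2 ≤ u ^ max a b * u := Nat.mul_le_mul_left _ hu
    have := ha u hu
    have := hb u hu
    omega
  | monomial n a =>
    refine ⟨a + n, fun u hu => ?_⟩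
    rw [eval_monomial, pow_add]
    refine Nat.mul_le_mul_right _ ?_
    exact (Nat.lt_two_pow_self).le.trans (Nat.pow_le_pow_left hu a)

/-- Monotonicity of evaluation. -/
lemma eval_mono (A : ℕ[X]) {u v : ℕ} (h : u ≤ v) : A.eval u ≤ A.eval v := by
  induction A using Polynomial.induction_on' with
  | add p q hp hq =>
    rw [eval_add, eval_add]
    exact Nat.add_le_add hp hq
  | monomial n a =>
    rw [eval_monomial, eval_monomial]
    exact Nat.mul_le_mul_left _ (Nat.pow_le_pow_left h n)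

end NUMaux

/-- Row NUM. -/
theorem num_row (hPOL : POLStmt) : NUMStmt := by
  intro f ℓ en k P r cl B hC hcl
  obtain ⟨C, hCp⟩ := hPOL f ℓ P r cl hC hcl
  obtain ⟨hmono, hid, hgr⟩ := hC
  -- the polynomial of the levels
  obtain ⟨A, hA⟩ : ∃ A : ℕ[X], ∀ i < k, ∀ u : ℕ,
      i + 6 + 8 * u + (al en i).eval (4 * u + 1) ≤ A.eval u := by
    refine ⟨∑ i ∈ range k, (Polynomial.C (i + 6) + 8 * X + (al en i).comp (4 * X + 1)),
      fun i hi u => ?_⟩
    rw [eval_finsetSum]
    have h1 := Finset.single_le_sum (f := fun i => eval u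
      (Polynomial.C (i + 6) + 8 * X + (al en i).comp (4 * X + 1)))
      (fun _ _ => Nat.zero_le _) (mem_range.mpr hi)
    refine le_trans (le_of_eq ?_) h1
    simp
  obtain ⟨c, hc⟩ := NUMaux.poly_le A
  obtain ⟨N1, hN1⟩ := hgr (100 * (C + 1))
  obtain ⟨N2, hN2⟩ := hgr (2 * C + c * C + 1)
  refine ⟨B + N1 + 1 + A.eval (N2 + 2), by omega, ?_⟩
  set κ := B + N1 + 1 + A.eval (N2 + 2) with hκ
  set n := 24 * (κ + 1) with hn
  -- logarithms
  have hlog : ∀ (u a b : ℕ), 1 ≤ u → a ≤ b → Nat.log 2 (ℓ (u ^ a)) ≤ Nat.log 2 (ℓ (u ^ b)) :=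
    fun u a b hu hab => Nat.log_mono_right (hmono (Nat.pow_le_pow_right hu hab))
  have hlog1 : ∀ (u a : ℕ), 2 ≤ u → 1 ≤ a → 1 ≤ Nat.log 2 (ℓ (u ^ a)) := by
    intro u a hu ha
    have h1 : 2 ≤ ℓ (u ^ a) := by
      refine le_trans ?_ (hid _)
      calc 2 ≤ u := hu
        _ = u ^ 1 := (pow_one u).symm
        _ ≤ u ^ a := Nat.pow_le_pow_right (by omega) ha
    have h2 := Nat.log_mono_right (b := 2) h1
    have h3 : Nat.log 2 2 = 1 := by
      have := Nat.log_pow (b := 2) (by norm_num) 1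
      rwa [pow_one] at this
    omega
  have hn2 : 2 ≤ n := by omega
  obtain ⟨p1, p2⟩ := hCp n hn2
  have hE : C * (Nat.log 2 (ℓ (n ^ C)) + 1) ≤ κ := by
    have h1 := (hN1 n (by omega)).2
    have h2 : Nat.log 2 (ℓ (n ^ C)) ≤ Nat.log 2 (ℓ (n ^ (100 * (C + 1)))) :=
      hlog n _ _ (by omega) (by omega)
    have h3 : 1 ≤ Nat.log 2 (ℓ (n ^ (100 * (C + 1)))) := hlog1 n _ hn2 (by omega)
    set g := Nat.log 2 (ℓ (n ^ (100 * (C + 1))))
    have h4 : C * (Nat.log 2 (ℓ (n ^ C)) + 1) ≤ C * (2 * g) := Nat.mul_le_mul_left _ (by omega)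
    have h5 : 50 * (C * (2 * g)) ≤ 100 * (C + 1) * g := by nlinarith
    have h6 : 50 * (C * (2 * g)) ≤ n := h5.trans h1
    omega
  refine ⟨p1.trans (Nat.pow_le_pow_right (by norm_num) hE),
    p2.trans_le (Nat.pow_le_pow_right (by norm_num) hE), ?_⟩
  intro i hi m K hlt
  refine p2.trans_le (Nat.pow_le_pow_right (by norm_num) ?_)
  -- the size of the level
  set u := max m K with hu
  have hm : m ≤ u := le_max_left _ _
  have hK : K ≤ u := le_max_right _ _
  have hnam : nam f m K ≤ 2 * u := by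
    unfold nam
    have := min_le_right (f m) m
    omega
  have hlev : levs en f i m K ≤ A.eval u := by
    refine le_trans ?_ (hA i hi u)
    unfold levs
    have h1 : (al en i).eval (2 * m + 1 + nam f m K) ≤ (al en i).eval (4 * u + 1) :=
      NUMaux.eval_mono _ (by omega)
    omega
  have hub : N2 + 2 ≤ u := by
    by_contra hcon
    have h1 : A.eval u ≤ A.eval (N2 + 2) := NUMaux.eval_mono _ (by omega)
    omega
  have hnu : n ≤ u ^ c := (hlt.le.trans hlev).trans (hc u (by omega))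
  have hg : Nat.log 2 (ℓ (n ^ C)) ≤ Nat.log 2 (ℓ (u ^ (2 * C + c * C + 1))) := by
    refine Nat.log_mono_right (hmono ?_)
    calc n ^ C ≤ (u ^ c) ^ C := Nat.pow_le_pow_left hnu C
      _ = u ^ (c * C) := (pow_mul u c C).symm
      _ ≤ u ^ (2 * C + c * C + 1) := Nat.pow_le_pow_right (by omega) (by omega)
  have hg1 : 1 ≤ Nat.log 2 (ℓ (u ^ (2 * C + c * C + 1))) := hlog1 u _ (by omega) (by omega)
  obtain ⟨h1, h2⟩ := hN2 u (by omega)
  set g := Nat.log 2 (ℓ (u ^ (2 * C + c * C + 1)))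
  have h3 : C * (Nat.log 2 (ℓ (n ^ C)) + 1) ≤ (2 * C + c * C + 1) * g := by
    calc C * (Nat.log 2 (ℓ (n ^ C)) + 1) ≤ C * (2 * g) := Nat.mul_le_mul_left _ (by omega)
      _ = 2 * C * g := by ring
      _ ≤ (2 * C + c * C + 1) * g := Nat.mul_le_mul_right _ (by omega)
  refine h3.trans ?_
  unfold nam
  rcases le_total m K with hmK | hmK
  · have hu' : u = K := by rw [hu]; exact max_eq_right hmK
    rw [hu'] at h2
    exact h2.trans (Nat.le_add_left _ _)
  · have hu' : u = m := by rw [hu]; exact max_eq_left hmK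
    rw [hu'] at h1 h2
    exact (le_min h1 h2).trans (Nat.le_add_right _ _)

end Pool.ORS
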